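import Mathlib
import Pool.Agent.W66.GE
import Pool.Agent.W66.XG
import Pool.Agent.H447R2.ML.Spec

set_option autoImplicit false

/-!
# The law for a fixed quadratic unit base and almost every amplitude
-/

namespace Pool.Agent.TH888.LF

open Filter Topology MeasureTheory
open Pool.Agent.H447R2.ML (U V closed U_pos Sh sh_of C1 cv)
open Pool.Agent.W66X (ysh measurable_ysh trans_shift law_sh floor_of_C1)
open Pool.Agent.H305R2 (ff)

/-- the law for a base satisfying the Diophantine condition of `near_irr` -/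
theorem C1_irr {α κ C A : ℝ} (hα : 1 < α) (hκ0 : 0 ≤ κ) (hκ : κ < α) {g : ℕ → ℝ}
    (hg : ∀ p, |g p| ≤ C * κ ^ p) (hA : 1 ≤ A) (hAα : A < α)
    (hdio : ∀ h a b : ℕ, 1 ≤ h → 1 ≤ a → 1 ≤ b → 1 ≤ |(a : ℝ) - b * α ^ h| * (A ^ h * (a + b))) :
    ∀ᵐ t : ℝ, Tendsto (fun n : ℕ => C1 (ysh α g) t n / Real.log n) atTop
      (𝓝 (Real.exp Real.eulerMascheroniConstant / Real.log α)) := by
  exact law_sh (Real.log_pos hα) (measurable_ysh α g)
    (fun a0 a1 _ => sh_of (by linarith) hκ0 hκ hg a0 a1)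
    (fun b0 => trans_shift hα hκ0 hκ hg b0)
    (fun b0 => Pool.Agent.W66V.near_irr hα hκ0 hκ hg hA hAα hdio b0)

theorem law_irr {α κ C A : ℝ} (hα : 1 < α) (hκ0 : 0 ≤ κ) (hκ : κ < α) {g : ℕ → ℝ}
    (hg : ∀ p, |g p| ≤ C * κ ^ p) (hA : 1 ≤ A) (hAα : A < α)
    (hdio : ∀ h a b : ℕ, 1 ≤ h → 1 ≤ a → 1 ≤ b → 1 ≤ |(a : ℝ) - b * α ^ h| * (A ^ h * (a + b))) :
    ∀ᵐ β : ℝ, 0 < β → Tendsto (fun n : ℕ => (cv (fun p x => x * α ^ p + g p) β n : ℝ) / Real.log n)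
      atTop (𝓝 (Real.exp Real.eulerMascheroniConstant / Real.log α)) :=
  floor_of_C1 hα hκ0 hκ hg (C1_irr hα hκ0 hκ hg hA hAα hdio)

lemma sqrt_irr {P : ℕ} (hP : 0 < P) : Irrational (Real.sqrt ((P : ℝ) ^ 2 + 4)) := by
  have e : ((P : ℝ) ^ 2 + 4) = ((P ^ 2 + 4 : ℕ) : ℝ) := by push_cast; ring
  rw [e, irrational_sqrt_natCast_iff]
  rintro ⟨r, hr⟩
  have h1 : P < r := by nlinarith
  have h2 : r < P + 2 := by nlinarith
  have h3 : r = P + 1 := by omega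
  subst h3
  have : 2 * P = 3 := by nlinarith
  omega

/-- the Diophantine condition for `α = (P + √(P² + 4)) / 2` -/
lemma dio {P : ℕ} (hP : 0 < P) {α : ℝ} (hα : α = (P + Real.sqrt ((P : ℝ) ^ 2 + 4)) / 2)
    (h a b : ℕ) (hh : 1 ≤ h) (_ha : 1 ≤ a) (hb : 1 ≤ b) :
    1 ≤ |(a : ℝ) - b * α ^ h| * ((1 : ℝ) ^ h * (a + b)) := by
  set s := Real.sqrt ((P : ℝ) ^ 2 + 4) with hs
  have hPr : (1 : ℝ) ≤ P := by exact_mod_cast hP
  have hs2 : s ^ 2 = (P : ℝ) ^ 2 + 4 := Real.sq_sqrt (by positivity)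
  have hs0 : 0 ≤ s := Real.sqrt_nonneg _
  have hsP : (P : ℝ) ≤ s := by nlinarith
  have hsP2 : s ≤ P + 2 := by nlinarith
  set ψ : ℝ := (P - s) / 2 with hψ
  have hψ1 : |ψ| ≤ 1 := by rw [abs_le]; constructor <;> linarith
  obtain ⟨h1, h2⟩ := closed P hs2 hα hψ h
  have hirr : Irrational s := sqrt_irr hP
  have hU : 0 < U P h := by
    obtain ⟨n, rfl⟩ : ∃ n, h = n + 1 := ⟨h - 1, by omega⟩
    exact U_pos P n hP
  have hUr : (0 : ℝ) < U P h := by exact_mod_cast hU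
  have hbr : (0 : ℝ) < b := by exact_mod_cast hb
  have hprod : α * ψ = -1 := by rw [hα, hψ]; nlinarith
  -- the norm
  have hnorm : ((a : ℝ) - b * α ^ h) * (a - b * ψ ^ h) =
      (((a : ℤ) ^ 2 - a * b * V P h + b ^ 2 * (-1) ^ h : ℤ) : ℝ) := by
    push_cast
    rw [h2]
    have : α ^ h * ψ ^ h = (-1) ^ h := by rw [← mul_pow, hprod]
    linear_combination (b : ℝ) ^ 2 * this
  have hne1 : (a : ℝ) - b * α ^ h ≠ 0 := by
    intro h0
    apply hirr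
    refine ⟨((2 * a / b - V P h) / U P h : ℚ), ?_⟩
    push_cast
    have h3 : α ^ h = a / b := by field_simp; linarith
    have h4 : ψ ^ h = V P h - a / b := by rw [h2, h3]; ring
    rw [h3, h4] at h1
    field_simp
    field_simp at h1
    linarith
  have hne2 : (a : ℝ) - b * ψ ^ h ≠ 0 := by
    intro h0
    apply hirr
    refine ⟨((V P h - 2 * a / b) / U P h : ℚ), ?_⟩
    push_cast
    have h3 : ψ ^ h = a / b := by field_simp; linarith
    have h4 : α ^ h = V P h - a / b := by rw [h2, h3]; ring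
    rw [h3, h4] at h1
    field_simp
    field_simp at h1
    linarith
  have hint : (1 : ℝ) ≤ |((a : ℝ) - b * α ^ h) * (a - b * ψ ^ h)| := by
    have hne : (((a : ℤ) ^ 2 - a * b * V P h + b ^ 2 * (-1) ^ h : ℤ)) ≠ 0 := by
      intro h0
      rw [h0] at hnorm
      simp only [Int.cast_zero] at hnorm
      exact (mul_ne_zero hne1 hne2) hnorm
    rw [hnorm]
    exact_mod_cast Int.one_le_abs hne
  rw [abs_mul] at hint
  have hle : |(a : ℝ) - b * ψ ^ h| ≤ a + b := by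
    have h5 : |ψ ^ h| ≤ 1 := by rw [abs_pow]; exact pow_le_one₀ (abs_nonneg _) hψ1
    have ha0 : (0 : ℝ) ≤ a := Nat.cast_nonneg _
    calc |(a : ℝ) - b * ψ ^ h| ≤ |(a : ℝ)| + |b * ψ ^ h| := abs_sub _ _
      _ = a + b * |ψ ^ h| := by rw [abs_of_nonneg ha0, abs_mul, abs_of_pos hbr]
      _ ≤ a + b * 1 := by gcongr
      _ = a + b := by ring
  rw [one_pow, one_mul]
  calc (1 : ℝ) ≤ |(a : ℝ) - b * α ^ h| * |(a : ℝ) - b * ψ ^ h| := hint
    _ ≤ _ := mul_le_mul_of_nonneg_left hle (abs_nonneg _)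

end Pool.Agent.TH888.LF
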