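import Mathlib
import Pool.Agent.TH888.LF.Dio
import Pool.Agent.TH888.R.Base

set_option autoImplicit false

/-!
# The golden ratio as a base
-/

namespace Pool.Agent.TH888.LF

open Filter Topology MeasureTheory
open Pool.Agent.H447R2.ML (U V closed U_pos V_pos rough_U lt_of_dvd_U lt_of_dvd_V roughPart_eq_self)
open Pool.Agent.H305R2 (roughPart)
open Pool.Agent.TH888.R (Near Pt pt_floor)

lemma gold_eq : Real.goldenRatio = (((1 : ℕ) : ℝ) + Real.sqrt (((1 : ℕ) : ℝ) ^ 2 + 4)) / 2 := by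
  unfold Real.goldenRatio
  norm_num

lemma conj_abs : |Real.goldenConj| < 1 := by
  rw [abs_lt]
  exact ⟨Real.neg_one_lt_goldenConj, by linarith [Real.goldenConj_neg]⟩

lemma gold_g (c : ℝ) (p : ℕ) : |(fun p : ℕ => c * Real.goldenConj ^ p) p| ≤ |c| * |Real.goldenConj| ^ p := by
  simp only
  rw [abs_mul, abs_pow]

lemma near_gold (c : ℝ) : Near Real.goldenRatio (fun p : ℕ => c * Real.goldenConj ^ p) := fun b0 =>
  Pool.Agent.W66V.near_irr Real.one_lt_goldenRatio (abs_nonneg _)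
    (conj_abs.trans Real.one_lt_goldenRatio) (gold_g c) le_rfl Real.one_lt_goldenRatio
    (fun h a b hh ha hb => dio (P := 1) one_pos gold_eq h a b hh ha hb) b0

theorem pt_gold (c : ℝ) (S : Set ℕ) : ∀ᵐ β : ℝ, 0 < β →
    Pt (fun p => ⌊β * Real.goldenRatio ^ p + c * Real.goldenConj ^ p⌋₊)
      (Real.exp Real.eulerMascheroniConstant / Real.log Real.goldenRatio) S :=
  pt_floor Real.one_lt_goldenRatio (abs_nonneg _) (conj_abs.trans Real.one_lt_goldenRatio)
    (gold_g c) (near_gold c) S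

lemma U_fib : ∀ n : ℕ, U 1 n = Nat.fib n
  | 0 => rfl
  | 1 => rfl
  | (n + 2) => by
      have h1 := U_fib n
      have h2 := U_fib (n + 1)
      show 1 * U 1 (n + 1) + U 1 n = Nat.fib (n + 2)
      rw [h1, h2, Nat.fib_add_two]
      ring

/-- the Fibonacci numbers -/
lemma rough_fib {p : ℕ} (hp : p.Prime) (h5 : 5 < p) :
    roughPart p ⌊1 / Real.sqrt 5 * Real.goldenRatio ^ p + -(1 / Real.sqrt 5) * Real.goldenConj ^ p⌋₊ =
      Nat.fib p := by
  have e : 1 / Real.sqrt 5 * Real.goldenRatio ^ p + -(1 / Real.sqrt 5) * Real.goldenConj ^ p =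
      (U 1 p : ℝ) := by
    rw [U_fib, Real.coe_fib_eq]
    ring
  rw [rough_U 1 one_pos hp h5.le ?_ e, U_fib]
  intro h
  have h1 : p ∣ 5 := by simpa using h
  have := Nat.le_of_dvd (by norm_num) h1
  omega

/-- the Lucas numbers -/
lemma rough_luc {p : ℕ} (hp : p.Prime) (h5 : 5 < p) :
    roughPart p ⌊1 * Real.goldenRatio ^ p + 1 * Real.goldenConj ^ p⌋₊ = V 1 p := by
  have hs : Real.sqrt 5 ^ 2 = ((1 : ℕ) : ℝ) ^ 2 + 4 := by
    rw [Real.sq_sqrt (by norm_num)]
    norm_num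
  have h := (closed 1 (s := Real.sqrt 5) (α := Real.goldenRatio) (ψ := Real.goldenConj) hs
    (by unfold Real.goldenRatio; norm_num) (by unfold Real.goldenConj; norm_num) p).2
  rw [one_mul, one_mul, ← h, Nat.floor_natCast]
  refine roughPart_eq_self (V_pos 1 p one_pos).ne' fun q hq hqV => ?_
  refine lt_of_dvd_V 1 hp h5.le (fun h1 => ?_) hq (fun h1 => ?_) hqV
  · exact hp.one_lt.ne' (Nat.dvd_one.1 h1)
  · exact hq.one_lt.ne' (Nat.dvd_one.1 h1)

end Pool.Agent.TH888.LF
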